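import Pool.Agent.Lib.MP_6ec4b3_lc.Interfaces
import Pool.Agent.Lib.PolyTime.Compile

/-!
# Module BRIDGE: from Turing machines to the class `PTime`, and back for predicates
-/

namespace Pool.Agent.Polya.H76

open Pool.Agent.Shoped30 Pool.Agent.TMLib Computability Turing
open Pool.Agent.PolyTime (Hdr UCode MS upd hd1 mbody mstep Prog mini mout U)

/-! ### The two size functions agree -/

theorem szP {α β : Type} [TrEnc α] [TrEnc β] [Pool.Agent.PolyTime.Enc α]
    [Pool.Agent.PolyTime.Enc β] (ha : ∀ a : α, sz a = Pool.Agent.PolyTime.size a)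
    (hb : ∀ b : β, sz b = Pool.Agent.PolyTime.size b) (p : α × β) :
    sz p = Pool.Agent.PolyTime.size p := by
  obtain ⟨a, b⟩ := p
  rw [sz_prod, Pool.Agent.PolyTime.size_prod, ha, hb]

theorem szL {α : Type} [TrEnc α] [Pool.Agent.PolyTime.Enc α]
    (ha : ∀ a : α, sz a = Pool.Agent.PolyTime.size a) (l : List α) :
    sz l = Pool.Agent.PolyTime.size l := by
  induction l with
  | nil => rfl
  | cons a l ih => rw [sz_cons, Pool.Agent.PolyTime.size_list_cons, ha, ih]

theorem szN (n : ℕ) : sz n = Pool.Agent.PolyTime.size n := by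
  rw [sz_nat, Pool.Agent.PolyTime.size_nat]

theorem szUCode (c : UCode) : sz c = Pool.Agent.PolyTime.size c :=
  szL (szP szN (szP szN (szL (szL szN)))) c

theorem szStacks (S : List (List ℕ)) : sz S = Pool.Agent.PolyTime.size S := szL (szL szN) S

theorem szMS (s : MS) : sz s = sz s.1 + sz s.2.1 + sz s.2.2 + 2 := by
  obtain ⟨a, b, c⟩ := s
  simp only [sz_prod]
  omega

/-! ### One step is computable in polynomial time -/

section

variable {α : Type} [TrEnc α]

@[fun_prop] theorem pt_upd {l : α → List (List ℕ)} {k : α → ℕ} {a : α → List ℕ}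
    (hl : PTime l) (hk : PTime k) (ha : PTime a) : PTime (fun c => upd (l c) (k c) (a c)) := by
  unfold upd
  fun_prop

@[fun_prop] theorem pt_hd1 {l : α → List ℕ} (hl : PTime l) : PTime (fun c => hd1 (l c)) := by
  unfold hd1
  exact PTime.add (by fun_prop) (PTime.ite (by fun_prop) (by fun_prop) (by fun_prop))

theorem pt_mbody (P : List UCode) : PTime (fun x : MS × Hdr × List Hdr =>
    mbody P x.1 x.2.1 x.2.2) := by
  unfold mbody
  refine PTime.ite_prop (c := fun x : MS × Hdr × List Hdr => x.2.1.1 = 0)
    (pt_eq (by fun_prop) (by fun_prop)) (by fun_prop) ?_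
  refine PTime.ite_prop (c := fun x : MS × Hdr × List Hdr => x.2.1.1 = 1)
    (pt_eq (by fun_prop) (by fun_prop)) (by fun_prop) ?_
  refine PTime.ite_prop (c := fun x : MS × Hdr × List Hdr => x.2.1.1 = 2)
    (pt_eq (by fun_prop) (by fun_prop)) (by fun_prop) ?_
  refine PTime.ite_prop (c := fun x : MS × Hdr × List Hdr => x.2.1.1 = 3)
    (pt_eq (by fun_prop) (by fun_prop)) (by fun_prop) ?_
  refine PTime.ite_prop (c := fun x : MS × Hdr × List Hdr => x.2.1.1 = 4)
    (pt_eq (by fun_prop) (by fun_prop)) ?_ ?_
  · refine PTime.pair (PTime.ite_prop (c := fun x : MS × Hdr × List Hdr =>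
      (x.2.1.2.2.getD x.1.2.1 []).headD 0 = 1)
      (pt_eq (by fun_prop) (by fun_prop)) (by fun_prop) (by fun_prop)) (by fun_prop)
  refine PTime.ite_prop (c := fun x : MS × Hdr × List Hdr => x.2.1.1 = 5)
    (pt_eq (by fun_prop) (by fun_prop)) ?_ ?_
  · exact PTime.pair (PTime.getD (by fun_prop) (PTime.const _) (PTime.const _)) (by fun_prop)
  · fun_prop

theorem pt_mstep (P : List UCode) : PTime (fun s : MS => mstep P s) :=
  (PTime.listCases (l := fun s : MS => s.1) (g := fun s => s)
    (h := fun s c r => mbody P s c r) (by fun_prop) (by fun_prop) (pt_mbody P)).of_eq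
    (fun s => by
      obtain ⟨a, b, c⟩ := s
      cases a <;> rfl)

/-! ### The universal function for a fixed program -/

theorem pt_mini (pr : Prog) {w : α → List Bool} (hw : PTime w) :
    PTime (fun x => mini pr (w x)) := by
  unfold mini
  refine PTime.pair (PTime.const _) (PTime.pair (PTime.const _) (pt_upd (PTime.const _)
    (PTime.const _) ?_))
  refine PTime.map (F := fun _ b => pr.2.2.2.2.2.1.getD b.toNat 0) hw ?_
  refine PTime.of_eq (f := fun p : α × Bool => if p.2 = true then pr.2.2.2.2.2.1.getD 1 0 else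
    pr.2.2.2.2.2.1.getD 0 0) (PTime.ite (by fun_prop) (PTime.const _) (PTime.const _)) ?_
  intro p
  cases p.2 <;> rfl

theorem pt_U (pr : Prog) {w : α → List Bool} {n : α → ℕ} (hw : PTime w) (hn : PTime n) :
    PTime (fun x => U pr (w x) (n x)) := by
  have hi := pt_mini pr hw
  set C : α → ℕ := fun x => sz pr.1 + sz (mini pr (w x)) + 3 with hC
  have hCB : PB C := ((PB.const _).add hi.pb_sz).add (PB.const _)
  have hit : PTime (fun x => (mstep pr.1)^[n x] (mini pr (w x))) := by
    refine PTime.iterate (F := fun _ s => mstep pr.1 s) hn hi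
      ((pt_mstep pr.1).comp' (f := fun p : α × MS => p.2) (by fun_prop))
      (fun x => C x + C x + (C x + n x * (C x + 3)) + 2) ?_ ?_
    · exact ((hCB.add hCB).add (hCB.add ((PB.nat hn).mul (hCB.add (PB.const 3))))).add
        (PB.const 2)
    · intro x i hi
      have hP : Pool.Agent.PolyTime.size pr.1 ≤ C x := by
        have : sz pr.1 = Pool.Agent.PolyTime.size pr.1 := szL szUCode _
        rw [← this, hC]
        beta_reduce
        omega
      have hm := szMS (mini pr (w x))
      have e1 := szUCode (mini pr (w x)).1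
      have e2 := szN (mini pr (w x)).2.1
      have e3 := szStacks (mini pr (w x)).2.2
      have h1 : Pool.Agent.PolyTime.size (mini pr (w x)).1 ≤ C x := by
        rw [hC]; beta_reduce; omega
      have h2 : Pool.Agent.PolyTime.size (mini pr (w x)).2.1 ≤ C x := by
        rw [hC]; beta_reduce; omega
      have h3 : Pool.Agent.PolyTime.size (mini pr (w x)).2.2 ≤ C x := by
        rw [hC]; beta_reduce; omega
      have hC3 : 3 ≤ C x := by rw [hC]; beta_reduce; omega
      obtain ⟨ha, hb, hc⟩ := Pool.Agent.PolyTime.mstep_iter_size hP hC3 _ h1 h2 i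
      have h4 : i * (C x + 3) ≤ n x * (C x + 3) := Nat.mul_le_mul_right _ hi
      change sz ((mstep pr.1)^[i] (mini pr (w x))) ≤ _
      rw [szMS, szUCode, szN, szStacks]
      omega
  unfold U mout
  refine PTime.map (F := fun _ j => pr.2.2.2.2.2.2.2.getD j false) ?_ ?_
  · exact PTime.getD (PTime.const _) (hit.snd.snd) (PTime.const _)
  · exact PTime.getD (by fun_prop) (PTime.const _) (PTime.const _)

end

/-! ### The bridge -/

theorem ptime_of_machine {β : Type} {eb : β → List Bool} {f : List Bool → β}
    (h : PolyTime (id : List Bool → List Bool) eb f) : PTime (fun w => eb (f w)) := by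
  obtain ⟨M, -⟩ := h
  obtain ⟨pr, B, hU⟩ := Pool.Agent.PolyTime.U_correct M.toTM2ComputableInTime
  refine (pt_U pr (w := fun w : List Bool => w)
    (n := fun w : List Bool => M.time.eval w.length * B) (by fun_prop)
    (PTime.mul (pt_poly _ (by fun_prop)) (PTime.const _))).of_eq (fun w => ?_)
  exact (hU w _ le_rfl).symm

theorem polyTime_of_ptime {R : List Bool → Bool} (h : PTime R) :
    PolyTime (id : List Bool → List Bool) encodeBool R := by
  have h1 : PTime (fun w => [R w]) := PTime.cons h (PTime.const _)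
  obtain ⟨M, hM⟩ := machine_finite h1
  exact ⟨{ tm := M.tm, inputAlphabet := M.inputAlphabet, outputAlphabet := M.outputAlphabet,
           time := M.time, outputsFun := M.outputsFun }, hM⟩

theorem bridge : BRIDGE := by
  refine ⟨fun A hA => ptime_of_machine (eb := (id : List Bool → List Bool)) (f := A) hA,
    fun R hR => ?_, fun R hR => polyTime_of_ptime hR⟩
  have h := ptime_of_machine (eb := encodeBool) (f := R) hR
  exact (PTime.headD h (PTime.const false)).of_eq (fun w => rfl)

end Pool.Agent.Polya.H76
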