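import Pool.Agent.Lib.MP_6ec4b3_lc.Interfaces

/-!
# Modules PTU, RPNP, FPA: the inverse of the pairing, and two consequences
-/

namespace Pool.Agent.Polya.H76

open Pool.Agent.Shoped30 Pool.Agent.TMLib Computability

/-! ### The inverse of the pairing -/

/-- The state of the parser: reversed first word, remaining word, finished. -/
abbrev USt : Type := List Bool × List Bool × Bool

/-- One step of the parser. -/
def ustep (s : USt) : USt :=
  if s.2.2 = true then s else
    if s.2.1.headD false = true then
      (if s.2.1.tail.isEmpty = true then (s.1, [], true)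
        else (s.2.1.tail.headD false :: s.1, s.2.1.tail.tail, false))
    else (s.1, s.2.1.tail, true)

theorem ustep_fin (a r : List Bool) (n : ℕ) : ustep^[n] (a, r, true) = (a, r, true) := by
  induction n with
  | zero => rfl
  | succ n ih =>
    rw [Function.iterate_succ_apply]
    exact ih

theorem ustep_iter : ∀ (w a : List Bool) (n : ℕ), w.length < n →
    ustep^[n] (a, w, false) = ((unpairW w).1.reverse ++ a, (unpairW w).2, true)
  | [], a, n, h => by
    obtain ⟨m, rfl⟩ : ∃ m, n = m + 1 := ⟨n - 1, by simp only [List.length_nil] at h; omega⟩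
    rw [Function.iterate_succ_apply]
    exact ustep_fin _ _ _
  | false :: w, a, n, h => by
    obtain ⟨m, rfl⟩ : ∃ m, n = m + 1 := ⟨n - 1, by simp only [List.length_cons] at h; omega⟩
    rw [Function.iterate_succ_apply]
    exact ustep_fin _ _ _
  | [true], a, n, h => by
    obtain ⟨m, rfl⟩ : ∃ m, n = m + 1 := ⟨n - 1, by simp only [List.length_cons] at h; omega⟩
    rw [Function.iterate_succ_apply]
    exact ustep_fin _ _ _
  | true :: b :: w, a, n, h => by
    obtain ⟨m, rfl⟩ : ∃ m, n = m + 1 := ⟨n - 1, by simp only [List.length_cons] at h; omega⟩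
    rw [Function.iterate_succ_apply]
    have e : ustep (a, true :: b :: w, false) = (b :: a, w, false) := rfl
    rw [e, ustep_iter w (b :: a) m (by simp only [List.length_cons] at h; omega)]
    simp [unpairW]

theorem pt_ustep : PTime ustep := by
  unfold ustep
  refine PTime.ite (by fun_prop) (by fun_prop) (PTime.ite (by fun_prop) (PTime.ite (by fun_prop)
    (by fun_prop) (by fun_prop)) (by fun_prop))

theorem ustep_size (s : USt) : sz (ustep s).1 + sz (ustep s).2.1 ≤ sz s.1 + sz s.2.1 := by
  obtain ⟨a, r, f⟩ := s
  cases f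
  · rcases r with _ | ⟨b, r⟩
    · exact le_rfl
    · cases b
      · show sz a + sz r ≤ sz a + sz (false :: r)
        rw [sz_cons]; omega
      · rcases r with _ | ⟨c, r⟩
        · show sz a + sz ([] : List Bool) ≤ sz a + sz [true]
          rw [sz_cons]; omega
        · show sz (c :: a) + sz r ≤ sz a + sz (true :: c :: r)
          simp only [sz_cons]; omega
  · exact le_rfl

theorem ustep_iter_size (s : USt) (n : ℕ) :
    sz (ustep^[n] s).1 + sz (ustep^[n] s).2.1 ≤ sz s.1 + sz s.2.1 := by
  induction n with
  | zero => exact le_rfl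
  | succ n ih =>
    rw [Function.iterate_succ_apply']
    exact (ustep_size _).trans ih

theorem pt_unpairW : PTime unpairW := by
  have h : PTime (fun w : List Bool => ustep^[w.length + 1] ([], w, false)) := by
    refine PTime.iterate (n := fun w : List Bool => w.length + 1)
      (g := fun w : List Bool => (([], w, false) : USt)) (F := fun _ s => ustep s) (by fun_prop)
      (by fun_prop) (pt_ustep.comp' (f := fun p : List Bool × USt => p.2) (by fun_prop))
      (fun w => sz w + 6) (PB.sz.add (PB.const 6)) ?_
    intro w i _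
    have h1 := ustep_iter_size ([], w, false) i
    have h2 := sz_bool_le (ustep^[i] ([], w, false)).2.2
    change sz (ustep^[i] ([], w, false)) ≤ sz w + 6
    have h3 : sz (ustep^[i] ([], w, false)) = sz (ustep^[i] ([], w, false)).1 +
      (sz (ustep^[i] ([], w, false)).2.1 + sz (ustep^[i] ([], w, false)).2.2 + 1) + 1 := rfl
    have h4 : sz (([], w, false) : USt).1 + sz (([], w, false) : USt).2.1 = 1 + sz w := rfl
    omega
  refine (PTime.pair (PTime.reverse h.fst) h.snd.fst).of_eq (fun w => ?_)
  rw [ustep_iter w [] _ (Nat.lt_succ_self _)]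
  simp

theorem unpairW_pairWord (w c : List Bool) : unpairW (pairWord w c) = (w, c) := by
  induction w with
  | nil => rfl
  | cons b w ih =>
    have e : unpairW (pairWord (b :: w) c) =
      (b :: (unpairW (pairWord w c)).1, (unpairW (pairWord w c)).2) := rfl
    rw [e, ih]

theorem ptu : PTU := ⟨pt_unpairW, unpairW_pairWord⟩

theorem pt_pairWord {α : Type} [TrEnc α] {w c : α → List Bool} (hw : PTime w) (hc : PTime c) :
    PTime (fun x => pairWord (w x) (c x)) :=
  (PTime.append (pt_preW.comp' hw) hc).of_eq (fun x => pairWord_eq _ _)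

/-! ### RP is contained in NP -/

theorem exists_of_prob_pos {N : ℕ} {P : List Bool → Prop} (h : 0 < prob N P) :
    ∃ r : List Bool, r.length = N ∧ P r := by
  by_contra hn
  push Not at hn
  have : IsEmpty {r : Fin N → Bool // P (List.ofFn r)} :=
    ⟨fun r => hn _ (List.length_ofFn) r.2⟩
  unfold prob at h
  rw [Nat.card_of_isEmpty] at h
  simp at h

theorem rpnp (hB : BRIDGE) (hU : PTU) : RPNP := by
  rintro L ⟨R, p, hR, h0, h1⟩
  refine ⟨fun x => decide ((unpairW x).2.length = p.eval (unpairW x).1.length) && R x, p,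
    hB.2.2 _ ?_, fun w => ⟨fun hw => ?_, ?_⟩⟩
  · have h2 := hU.1
    exact PTime.and (pt_eq (PTime.length h2.snd) (pt_poly p (PTime.length h2.fst))) (hB.2.1 R hR)
  · obtain ⟨r, hr, hr'⟩ := exists_of_prob_pos (lt_of_lt_of_le (by norm_num) (h1 w hw))
    refine ⟨r, hr.le, ?_⟩
    beta_reduce
    rw [hU.2, hr', hr]
    simp
  · rintro ⟨c, -, hc'⟩
    beta_reduce at hc'
    rw [hU.2, Bool.and_eq_true, decide_eq_true_iff] at hc'
    by_contra hw
    have := h0 w hw c hc'.1
    rw [hc'.2] at this
    exact absurd this (by decide)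

/-! ### From the approximation scheme to an approximation within the factor two -/

theorem exp_half_le : Real.exp (1 / 2) ≤ 2 := by
  have h1 : Real.exp (1 / 2) * Real.exp (1 / 2) = Real.exp 1 := by
    rw [← Real.exp_add]; norm_num
  have h2 := Real.exp_one_lt_d9
  have h3 := Real.exp_pos (1 / 2)
  nlinarith

theorem fpa (hB : BRIDGE) (hU : PTU) : FPA := by
  rintro k ⟨A, p, hA, h⟩
  refine ⟨fun x => A (pairWord (pairWord (unpairW x).1 (List.replicate 2 true)) (unpairW x).2),
    p.comp (Polynomial.X + 2), ?_, fun m gs hgs => ?_⟩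
  · have h2 := hU.1
    exact (hB.1 A hA).comp (pt_pairWord (pt_pairWord h2.fst (PTime.const _)) h2.snd)
  · have h3 := h m gs hgs 2 le_rfl
    rw [Polynomial.eval_comp]
    simp only [Polynomial.eval_add, Polynomial.eval_X, Polynomial.eval_ofNat]
    refine h3.trans ?_
    unfold prob
    refine div_le_div_of_nonneg_right ?_ (by positivity)
    refine Nat.cast_le.2 (Nat.card_le_card_of_injective (fun r => ⟨r.1, ?_⟩) ?_)
    · obtain ⟨a, b, hab, hb, h5, h6⟩ := r.2
      refine ⟨a, b, ?_, hb, ?_, ?_⟩
      · rw [hU.2]
        exact hab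
      · refine le_trans ?_ h5
        have h7 : Real.exp (-(1 / ((2 : ℕ) : ℝ))) = (Real.exp (1 / 2))⁻¹ := by
          rw [Real.exp_neg]; norm_num
        rw [h7, div_eq_mul_inv, mul_comm]
        refine mul_le_mul_of_nonneg_right ?_ (Nat.cast_nonneg _)
        exact inv_anti₀ (Real.exp_pos _) exp_half_le
      · refine h6.trans (mul_le_mul_of_nonneg_right ?_ (Nat.cast_nonneg _))
        refine le_trans (le_of_eq ?_) exp_half_le
        norm_num
    · intro r s hrs
      exact Subtype.ext (congrArg (fun t => t.1) hrs)

end Pool.Agent.Polya.H76
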